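import Mathlib

/-!
# The number of irreducible components of a numerical semigroup is unbounded

For `D ≥ 1` let `S_D = {0} ∪ [2D+1, 3D+1] ∪ [4D+2, ∞)`.  Every irreducible numerical semigroup
containing `S_D` misses at most one of the `D` gaps `3D+2, ..., 4D+1` of `S_D`; hence `S_D` is not an
intersection of fewer than `D` irreducible numerical semigroups.
-/

set_option autoImplicit false

namespace Pool.Agent.Results.MP_b58a5b_nt.KappaUnbounded

/-- A numerical semigroup: an additive submonoid of `ℕ` with finite complement. -/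
def IsNumericalSemigroup (S : AddSubmonoid ℕ) : Prop := ((S : Set ℕ)ᶜ).Finite

/-- Irreducible numerical semigroup: a numerical semigroup that is not the intersection of two
numerical semigroups properly containing it. -/
def IsIrred (S : AddSubmonoid ℕ) : Prop :=
  IsNumericalSemigroup S ∧
    ¬ ∃ S₁ S₂ : AddSubmonoid ℕ, IsNumericalSemigroup S₁ ∧ IsNumericalSemigroup S₂ ∧
      S < S₁ ∧ S < S₂ ∧ S = S₁ ⊓ S₂

/-- The submonoid `{0} ∪ [2D+1, 3D+1] ∪ [4D+2, ∞)`. -/
def SD (D : ℕ) : AddSubmonoid ℕ where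
  carrier := {n | n = 0 ∨ (2 * D + 1 ≤ n ∧ n ≤ 3 * D + 1) ∨ 4 * D + 2 ≤ n}
  zero_mem' := Or.inl rfl
  add_mem' := by
    intro a b ha hb
    simp only [Set.mem_setOf_eq] at ha hb ⊢
    omega

theorem mem_SD (D n : ℕ) :
    n ∈ SD D ↔ n = 0 ∨ (2 * D + 1 ≤ n ∧ n ≤ 3 * D + 1) ∨ 4 * D + 2 ≤ n := Iff.rfl

/-- Adjoining a gap `x` to a submonoid. -/
def adjoin (T : AddSubmonoid ℕ) (x : ℕ) (h1 : ∀ s ∈ T, s ≠ 0 → x + s ∈ T) (h2 : x + x ∈ T) :
    AddSubmonoid ℕ where
  carrier := {n | n ∈ T ∨ n = x}
  zero_mem' := Or.inl T.zero_mem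
  add_mem' := by
    intro a b ha hb
    simp only [Set.mem_setOf_eq] at ha hb ⊢
    rcases ha with ha | ha
    · rcases hb with hb | hb
      · exact Or.inl (T.add_mem ha hb)
      · subst hb
        by_cases h0 : a = 0
        · right; omega
        · left; rw [add_comm]; exact h1 a ha h0
    · subst ha
      rcases hb with hb | hb
      · by_cases h0 : b = 0
        · right; omega
        · left; exact h1 b hb h0
      · subst hb; exact Or.inl h2

theorem mem_adjoin (T : AddSubmonoid ℕ) (x : ℕ) (h1 : ∀ s ∈ T, s ≠ 0 → x + s ∈ T)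
    (h2 : x + x ∈ T) (n : ℕ) : n ∈ adjoin T x h1 h2 ↔ n ∈ T ∨ n = x := Iff.rfl

/-- An irreducible numerical semigroup with largest gap `f` contains `f - x` for every gap `x`
with `2 * x ≠ f`. -/
theorem gap_symm (T : AddSubmonoid ℕ) (hT : IsIrred T) (f : ℕ) (hf : f ∉ T)
    (hmax : ∀ n, f < n → n ∈ T) (x : ℕ) (hx : x ∉ T) (hxf : 2 * x ≠ f) : f - x ∈ T := by
  classical
  by_contra hcon
  have hxle : x ≤ f := by
    by_contra h
    exact hx (hmax x (by omega))
  -- the set of bad gaps
  let P : ℕ → Prop := fun y => y ∉ T ∧ f - y ∉ T ∧ 2 * y ≠ f ∧ y ≤ f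
  have hP : P x := ⟨hx, hcon, hxf, hxle⟩
  obtain ⟨y, hy, hymax⟩ : ∃ y, P y ∧ ∀ z, P z → z ≤ y := by
    have hbd : ∀ z, P z → z ≤ f := fun z hz => hz.2.2.2
    have h := Nat.findGreatest_spec (P := P) (n := f) (m := x) hxle hP
    refine ⟨Nat.findGreatest P f, h, fun z hz => ?_⟩
    exact Nat.le_findGreatest (hbd z hz) hz
  obtain ⟨hy1, hy2, hy3, hy4⟩ := hy
  have hy5 : f < 2 * y := by
    by_contra hlt
    have hP' : P (f - y) := by
      refine ⟨hy2, ?_, by omega, by omega⟩
      have : f - (f - y) = y := by omega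
      rw [this]; exact hy1
    have := hymax _ hP'
    omega
  have hyf : y ≠ f := by
    intro h
    apply hy2
    rw [h, Nat.sub_self]; exact T.zero_mem
  have hy0 : f ≠ 0 := by
    intro h; rw [h] at hf; exact hf T.zero_mem
  -- T ∪ {y} is a submonoid
  have h1 : ∀ s ∈ T, s ≠ 0 → y + s ∈ T := by
    intro s hs hs0
    by_contra hns
    have hle : y + s ≤ f := by
      by_contra h
      exact hns (hmax _ (by omega))
    have hP' : P (y + s) := by
      refine ⟨hns, ?_, by omega, hle⟩
      intro hmem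
      apply hy2
      have : f - y = (f - (y + s)) + s := by omega
      rw [this]; exact T.add_mem hmem hs
    have := hymax _ hP'
    omega
  have h2 : y + y ∈ T := hmax _ (by omega)
  have h3 : ∀ s ∈ T, s ≠ 0 → f + s ∈ T := fun s _ hs0 => hmax _ (by omega)
  have h4 : f + f ∈ T := hmax _ (by omega)
  apply hT.2
  refine ⟨adjoin T y h1 h2, adjoin T f h3 h4, ?_, ?_, ?_, ?_, ?_⟩
  · refine hT.1.subset ?_
    intro n hn hnT
    exact hn (Or.inl hnT)
  · refine hT.1.subset ?_
    intro n hn hnT
    exact hn (Or.inl hnT)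
  · refine lt_of_le_of_ne (fun n hn => Or.inl hn) ?_
    intro h
    apply hy1
    rw [h]; exact Or.inr rfl
  · refine lt_of_le_of_ne (fun n hn => Or.inl hn) ?_
    intro h
    apply hf
    rw [h]; exact Or.inr rfl
  · ext n
    rw [AddSubmonoid.mem_inf, mem_adjoin, mem_adjoin]
    constructor
    · intro h; exact ⟨Or.inl h, Or.inl h⟩
    · rintro ⟨h | h, h' | h'⟩
      · exact h
      · exact h
      · exact h'
      · exfalso; omega

/-- An irreducible numerical semigroup containing `S_D` misses at most one element of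
`[3D+2, 4D+1]`. -/
theorem misses_one (D : ℕ) (T : AddSubmonoid ℕ) (hT : IsIrred T) (hST : SD D ≤ T)
    (g g' : ℕ) (hg : g ∉ T) (hg' : g' ∉ T) (h1 : 3 * D + 2 ≤ g) (h1' : 3 * D + 2 ≤ g') : g = g' := by
  classical
  -- every gap of `T` is at most `4 D + 1`
  have hle : ∀ n, n ∉ T → n ≤ 4 * D + 1 := by
    intro n hn
    by_contra h
    exact hn (hST ((mem_SD D n).2 (Or.inr (Or.inr (by omega)))))
  obtain ⟨f, hf, hfmax⟩ : ∃ f, f ∉ T ∧ ∀ n, f < n → n ∈ T := by
    have h := Nat.findGreatest_spec (P := fun n => n ∉ T) (n := 4 * D + 1) (m := g) (hle g hg) hg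
    refine ⟨Nat.findGreatest (fun n => n ∉ T) (4 * D + 1), h, fun n hn => ?_⟩
    by_contra hnT
    have := Nat.le_findGreatest (P := fun n => n ∉ T) (hle n hnT) hnT
    omega
  have key : ∀ x, x ∉ T → 3 * D + 2 ≤ x → x = f := by
    intro x hx hx1
    by_contra hne
    have hxf : x < f := by
      rcases lt_or_ge f x with h | h
      · exact absurd (hfmax x h) hx
      · omega
    have hf4 := hle f hf
    have hd : f - x ∈ T := gap_symm T hT f hf hfmax x hx (by omega)
    obtain ⟨d, hd'⟩ : ∃ d, f - x = d := ⟨_, rfl⟩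
    rw [hd'] at hd
    have hd0 : 0 < d := by omega
    have hdD : d < D := by omega
    -- write `f = s + m * d` with `s` in `[2D+1, 3D+1]`
    have hfm : (f - (2 * D + 1)) % d < d := Nat.mod_lt _ hd0
    have hdm : d * ((f - (2 * D + 1)) / d) + (f - (2 * D + 1)) % d = f - (2 * D + 1) :=
      Nat.div_add_mod _ _
    have hs : (2 * D + 1 + (f - (2 * D + 1)) % d) ∈ T := by
      apply hST
      rw [mem_SD]
      right; left
      omega
    have hm : d * ((f - (2 * D + 1)) / d) ∈ T := by
      have := T.nsmul_mem hd ((f - (2 * D + 1)) / d)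
      rwa [smul_eq_mul, mul_comm] at this
    apply hf
    have hfe : f = d * ((f - (2 * D + 1)) / d) + (2 * D + 1 + (f - (2 * D + 1)) % d) := by omega
    rw [hfe]
    exact T.add_mem hm hs
  rw [key g hg h1, key g' hg' h1']

/-- For every `D`, the set `S_D` is a numerical semigroup, and whenever it is the intersection of `k`
irreducible numerical semigroups, then `k ≥ D`. In particular no `N` bounds the number of irreducible
components needed. -/
theorem result : ∀ D : ℕ, IsNumericalSemigroup (SD D) ∧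
    ∀ (k : ℕ) (T : Fin k → AddSubmonoid ℕ), (∀ i, IsIrred (T i)) → SD D = ⨅ i, T i → D ≤ k := by
  intro D
  refine ⟨?_, ?_⟩
  · refine (Set.finite_Iio (4 * D + 2)).subset ?_
    intro n hn
    by_contra h
    apply hn
    rw [Set.mem_Iio, not_lt] at h
    exact Or.inr (Or.inr h)
  · intro k T hT hS
    have hle : ∀ i, SD D ≤ T i := fun i => hS ▸ iInf_le T i
    have hex : ∀ j : Fin D, ∃ i : Fin k, (3 * D + 2 + (j : ℕ)) ∉ T i := by
      intro j
      by_contra hcon
      push_neg at hcon
      have : (3 * D + 2 + (j : ℕ)) ∈ SD D := by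
        rw [hS, AddSubmonoid.mem_iInf]
        exact hcon
      rw [mem_SD] at this
      have := j.isLt
      omega
    choose φ hφ using hex
    have hinj : Function.Injective φ := by
      intro a b hab
      have h1 := hφ a
      have h2 := hφ b
      rw [← hab] at h2
      have := misses_one D (T (φ a)) (hT _) (hle _) _ _ h1 h2 (by omega) (by omega)
      apply Fin.ext
      omega
    simpa using Fintype.card_le_of_injective φ hinj

/-- The negated form of the question, literally: no positive integer `N` bounds `κ`. -/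
theorem negated_form : ∀ N : ℕ, ∃ S : AddSubmonoid ℕ, IsNumericalSemigroup S ∧
    ∀ k ≤ N, ¬ ∃ T : Fin k → AddSubmonoid ℕ, (∀ i, IsIrred (T i)) ∧ S = ⨅ i, T i := by
  intro N
  refine ⟨SD (N + 1), (result (N + 1)).1, ?_⟩
  rintro k hk ⟨T, hT, hS⟩
  have := (result (N + 1)).2 k T hT hS
  omega

end Pool.Agent.Results.MP_b58a5b_nt.KappaUnbounded
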